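import Pool.Agent.Helper56.DUniv.Main

/-!
# The standard conjecture D and omitted representations

Let `F` be a perfect field with algebraic closure `k` and Galois group `G`, fix a Weil cohomology, a
dimension `n`, a codimension `r` and a variety `Y` over `F` of dimension `n`. If there is, on some
variety of dimension `n` over `k`, a numerically trivial cycle of codimension `r` which is not
homologically trivial, then **every** finite-dimensional rational representation `E` of `G × Δ` with
open kernel, for every finite group `Δ`, is a subrepresentation of the numerically trivial cycles
modulo homological equivalence on some variety `X` over `F` of dimension `n` with an action of `Δ`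
over `F` and a `Δ`-invariant generically finite morphism to `Y`; and `E ⊗ K` is then a
subrepresentation of the cohomology. So the conjecture D (in dimension `n` and codimension `r`,
over `k`) holds if one single such representation is omitted: for instance, if

* on the varieties over `k` of dimension `n` with an involution, and which dominate `Y` through the
  quotient by it (say `Y` is the projective space), the numerically trivial cycles of codimension `r`
  which are anti-invariant are homologically trivial;
* or `F` is finite, and for one `m` the numerically trivial cycles on the varieties over `F` are,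
  modulo homological equivalence, all defined over the extension of degree `m` of `F`;
* or the numerically trivial cycles modulo homological equivalence never contain one given
  irreducible representation of one finite group of automorphisms.

The same is true for every family of subspaces of the numerically trivial cycles stable under
pull-backs and conjugation; for instance for the cycles which are homologically trivial for another
Weil cohomology theory `H'`: if the homological equivalences of `H` and `H'` differ in dimension
`n` and codimension `r`, then each representation occurs in the difference.

Proof: let `t` be a numerically trivial cycle on `S` over `F` (one reduces to this by restriction of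
scalars) which is not homologically trivial. Let `L'` be a finite Galois extension of `F` such that
the Galois group of `k` over `L'` fixes `t` and acts trivially on `E`, let `Γ` be the Galois group of
`L'` over `F`, and `V` a `Δ`-invariant complete intersection of dimension `n` in the product of `Y` and
the restriction of scalars of `S^{M × Δ}` from `L'` to `F`, where `M` is the dimension of `E`. It has
projections `p i m d : V ⟶ S` over `k`, and `(p i m d)_* (p i' m' d')^*` kills numerically trivial
cycles, unless the indices are equal. If `λ_m` are coordinates on `E`, then
`e ↦ ∑ λ_m ((i⁻¹, d) e) (p i m d)^* (i t)` is equivariant, and its composition with the push-forward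
along `p 1 m 1` is `e ↦ λ_m (e) κ t`.
-/

open CategoryTheory AlgebraicGeometry

universe u v w x y

namespace Pool.Agent.Results.MP_f569db_ag.OmittedRepresentation

open Pool.Agent.H914 Pool.Agent.H914.VarClass Pool.Agent.H914.VarClass.Obj Pool.Agent.W492.BB
  Pool.Agent.TH133 Pool.Agent.V1157.PO Pool.Agent.V11106.DB Pool.Agent.Helper56.DUniv

/-- Some representation is omitted above `Y` by the cycles of the family `P`, modulo homological
equivalence. -/
def Omits {k : Type u} [Field k] {𝒱 : VarClass k} {C : TheoryData.{u, v, 0} 𝒱 ℚ} {K : Type w}
    [Field K] {G : Type x} [Group G] [TopologicalSpace G] (R : FormData.{u, v, x, y} G C)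
    (H : WeilTheoryData.{u, v, w} C K) (P : ∀ X : 𝒱.Obj, C.A X → Prop) (Y : R.Form) (n : ℕ) :
    Prop :=
  ∃ (Δ : Type) (_ : Group Δ) (_ : Finite Δ) (E : Type) (_ : AddCommGroup E) (_ : Module ℚ E)
    (_ : Module.Finite ℚ E) (ρ : Representation ℚ (G × Δ) E),
    HasOpenKernel ρ ∧ ¬ OccursAbove R H P Y n ρ

theorem result {k : Type u} [Field k] {𝒱 : VarClass k} {C : TheoryData.{u, v, 0} 𝒱 ℚ}
    [IsChowProj C] {K : Type w} [Field K] (H : WeilTheoryData.{u, v, w} C K) [IsWeilProj H]
    {G : Type x} [Group G] [TopologicalSpace G] [IsTopologicalGroup G] [CompactSpace G]
    [TotallyDisconnectedSpace G] (R : FormData.{u, v, x, y} G C) (hR : IsGalois R) (n r : ℕ)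
    (hI : HasInvariantIntersections R n) (Y : R.Form) (hYG : R.grp Y = ⊤)
    (hY : (R.obj Y).dim = n) :
    (NumIsHom H n r ↔ Omits R H (fun _ x => NumTrivial C r x) Y n) ∧
    ∀ P : ∀ X : 𝒱.Obj, C.A X → Prop, IsFamily R n r P → (Vanishes H P n ↔ Omits R H P Y n) := by
  have main : ∀ P : ∀ X : 𝒱.Obj, C.A X → Prop, IsFamily R n r P →
      (Vanishes H P n ↔ Omits R H P Y n) := by
    intro P hP
    constructor
    · intro h
      exact ⟨Unit, inferInstance, inferInstance, ℚ, inferInstance, inferInstance, inferInstance,
        Representation.trivial ℚ (G × Unit) ℚ, ⟨⊤, isOpen_univ, fun _ _ => rfl⟩, not_occurs h Y⟩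
    · rintro ⟨Δ, _, _, E, _, _, _, ρ, hρ, hno⟩
      by_contra hne
      exact hno (occurs_of_not hR hP hI hYG hY hne ρ hρ)
  exact ⟨main _ (isFamily_num hR H), main⟩

end Pool.Agent.Results.MP_f569db_ag.OmittedRepresentation
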